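import Mathlib
import Pool.Agent.H48.AS.Gold

/-!
# Totient-sum primes: arbitrary sets of values

`q(n, k) = φ(k) + φ(n - k) / 2 + 1`. There is a constant `c > 0` such that, for every `A`, every large `x` and every
set `B` of odd numbers in `(x, 2 x]` with at least `x / (log x) ^ A` elements, at least `c x / (log log x) ^ 4`
integers `n ≤ 7 x` have at least `c |B| / (log x) ^ 2` primes `k < n - 2` with `n - k` three times a prime and
`q(n, k) ∈ B`. With `B` the set of the primes `q ∈ (x, 2 x]` for which `p_q - q - 1` and `p_q - q + 1` are primes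
this is a converse of the known implication of the problem: as soon as there are at least `x / (log x) ^ A` such
primes, Q1 holds for at least `c x / (log log x) ^ 4` integers `n ≤ 7 x`, with many `k`.

Proof: for `k = r` and `n - k = 3 s` with primes `r`, `s`, `q(n, k) = r + s - 1`. The number of the pairs `(r, s)`
with `r + s - 1 ∈ B` is bounded below by the theorem on the variance of the Goldbach representations, which applies
to every set of this size. The second moment of the number of the representations `n = r + 3 s` is bounded by an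
upper bound sieve for four linear forms.
-/

set_option autoImplicit false

namespace Pool.Agent.Results.MP_61a569_nt.ArbitrarySetsOfValues

open Finset Filter Topology
open Pool.Agent.H48.AS

/-- `q(n, k) = φ(k) + φ(n - k) / 2 + 1` -/
def q (n k : ℕ) : ℕ := Nat.totient k + Nat.totient (n - k) / 2 + 1

/-- The `m`-th prime, `p 1 = 2` -/
noncomputable def p (m : ℕ) : ℕ := Nat.nth Nat.Prime (m - 1)

/-- The number of the primes `k`, `1 ≤ k < n - 2`, with `n - k` three times a prime and `q(n, k) ∈ B`. -/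
noncomputable def count (B : Finset ℕ) (n : ℕ) : ℕ :=
  {k : ℕ | 1 ≤ k ∧ k < n - 2 ∧ k.Prime ∧ (∃ s : ℕ, s.Prime ∧ n - k = 3 * s) ∧ q n k ∈ B}.ncard

/-- `m` and `p_m - m - 1` and `p_m - m + 1` are primes. -/
def Good (m : ℕ) : Prop := m.Prime ∧ (p m - m - 1).Prime ∧ (p m - m + 1).Prime

/-- The number of the `k` with `1 ≤ k < n - 2` that are admissible for `n`. -/
noncomputable def admissible (n : ℕ) : ℕ := {k : ℕ | 1 ≤ k ∧ k < n - 2 ∧ Good (q n k)}.ncard

lemma q_val {n r s : ℕ} (hr : r.Prime) (hs : s.Prime) (h5 : 5 ≤ s) (h : n = r + 3 * s) : q n r = r + s - 1 := by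
  unfold q
  have h1 : n - r = 3 * s := by omega
  have hco : Nat.Coprime 3 s := by
    rw [Nat.coprime_primes Nat.prime_three hs]
    omega
  rw [h1, Nat.totient_mul hco, Nat.totient_prime hr, Nat.totient_prime hs, Nat.totient_prime Nat.prime_three]
  have := hr.two_le
  omega

lemma fib_le (B : Finset ℕ) (N n : ℕ) : (fibn (EE B N) n).card ≤ count B n := by
  classical
  unfold count
  have hfin : {k : ℕ | 1 ≤ k ∧ k < n - 2 ∧ k.Prime ∧ (∃ s : ℕ, s.Prime ∧ n - k = 3 * s) ∧ q n k ∈ B}.Finite :=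
    (Set.finite_lt_nat n).subset fun k hk => by
      have := hk.2.1
      show k < n
      omega
  rw [← Set.ncard_coe_finset]
  have hmem : ∀ z ∈ fibn (EE B N) n, z.1.Prime ∧ z.2.Prime ∧ 5 ≤ z.2 ∧ z.1 + z.2 - 1 ∈ B ∧ z.1 + 3 * z.2 = n := by
    intro z hz
    unfold fibn EE at hz
    rw [mem_filter, mem_filter] at hz
    exact ⟨hz.1.2.1, hz.1.2.2.1, hz.1.2.2.2.1, hz.1.2.2.2.2, hz.2⟩
  refine Set.ncard_le_ncard_of_injOn (fun z => z.1) ?_ ?_ hfin
  · intro z hz
    obtain ⟨h1, h2, h3, h4, h5⟩ := hmem z (mem_coe.1 hz)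
    have h6 := h1.two_le
    refine ⟨by omega, by omega, h1, ⟨z.2, h2, by omega⟩, ?_⟩
    rw [q_val h1 h2 h3 h5.symm]
    exact h4
  · intro z hz w hw h
    obtain ⟨-, -, -, -, h5⟩ := hmem z (mem_coe.1 hz)
    obtain ⟨-, -, -, -, h6⟩ := hmem w (mem_coe.1 hw)
    have e1 : z.1 = w.1 := h
    exact Prod.ext e1 (by omega)

lemma sum_fib (B : Finset ℕ) (x : ℕ) (hB : ∀ q ∈ B, Odd q ∧ x < q ∧ q ≤ 2 * x) :
    (EE B (2 * x + 1)).card = ∑ n ∈ Icc 1 (7 * x), (fibn (EE B (2 * x + 1)) n).card := by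
  classical
  unfold fibn
  rw [← card_eq_sum_card_fiberwise]
  intro z hz
  rw [mem_coe] at hz
  unfold EE at hz
  rw [mem_filter] at hz
  obtain ⟨-, h1, h2, h3, h4⟩ := hz
  have h5 := hB _ h4
  have h6 := h1.two_le
  rw [mem_coe, mem_Icc]
  show 1 ≤ z.1 + 3 * z.2 ∧ z.1 + 3 * z.2 ≤ 7 * x
  omega

/-- **Totient sums with values in an arbitrary set** -/
theorem main : ∃ c : ℝ, 0 < c ∧ ∀ A : ℕ, ∀ᶠ x : ℕ in atTop, ∀ B : Finset ℕ,
    (∀ m ∈ B, Odd m ∧ x < m ∧ m ≤ 2 * x) → (x : ℝ) / Real.log x ^ A ≤ B.card →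
    c * x / Real.log (Real.log x) ^ 4 ≤
      (({n : ℕ | 32 ≤ n ∧ n ≤ 7 * x ∧ c * B.card / Real.log x ^ 2 ≤ count B n}.ncard : ℕ) : ℝ) := by
  classical
  obtain ⟨C, hC, hsec⟩ := second
  obtain ⟨c, hc⟩ : ∃ c : ℝ, c = min (1 / 1024 / C) (1 / 224) := ⟨_, rfl⟩
  have hc0 : 0 < c := by rw [hc]; positivity
  have hc1 : c ≤ 1 / 1024 / C := by rw [hc]; exact min_le_left _ _
  have hc2 : c ≤ 1 / 224 := by rw [hc]; exact min_le_right _ _
  refine ⟨c, hc0, fun A => ?_⟩
  have tN : Tendsto (fun N : ℕ => (N : ℝ)) atTop atTop := tendsto_natCast_atTop_atTop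
  have tL : Tendsto (fun N : ℕ => Real.log (N : ℝ)) atTop atTop := Real.tendsto_log_atTop.comp tN
  have hpow : ∀ᶠ x : ℕ in atTop, Real.log (x : ℝ) ^ (A + 4) ≤ x := by
    have h1 := (isLittleO_log_rpow_rpow_atTop ((A + 4 : ℕ) : ℝ) (zero_lt_one)).def (zero_lt_one)
    filter_upwards [tN.eventually h1, tL.eventually_ge_atTop 1] with x hx hL
    rw [Real.rpow_one, one_mul, Real.norm_of_nonneg (by positivity), Real.norm_of_nonneg (Nat.cast_nonneg _),
      Real.rpow_natCast] at hx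
    exact hx
  filter_upwards [hsec, gold_sets A, tL.eventually_ge_atTop 8, eventually_ge_atTop 32, hpow] with x h2 h1 hL hx32 hp B hB hcard
  have hlx0 : 0 < Real.log (x : ℝ) := by linarith
  have hx0 : (0 : ℝ) < x := by
    have : 0 < x := by omega
    exact_mod_cast this
  have hll1 : 1 ≤ Real.log (Real.log x) := by
    rw [Real.le_log_iff_exp_le hlx0]
    have := Real.exp_one_lt_d9
    linarith
  have hb4 : Real.log x ^ 4 ≤ B.card := by
    refine le_trans ?_ hcard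
    rw [le_div_iff₀ (by positivity), ← pow_add, add_comm 4 A]
    exact hp
  have hb0 : (0 : ℝ) < B.card := lt_of_lt_of_le (by positivity) hb4
  have S2 := h2 B hB hb4
  have S1 := h1 B hB hcard
  obtain ⟨f, hf⟩ : ∃ f : ℕ → ℝ, ∀ n, f n = ((fibn (EE B (2 * x + 1)) n).card : ℝ) := ⟨_, fun _ => rfl⟩
  have hS1 : (B.card : ℝ) * x / (16 * Real.log x ^ 2) ≤ ∑ n ∈ Icc 1 (7 * x), f n := by
    refine S1.trans (le_of_eq ?_)
    rw [sum_fib B x hB]
    push_cast
    exact sum_congr rfl fun n _ => (hf n).symm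
  have hS2 : ∑ n ∈ Icc 1 (7 * x), f n ^ 2 ≤
      C * (B.card : ℝ) ^ 2 * x * Real.log (Real.log x) ^ 4 / Real.log x ^ 4 := by
    refine le_trans (le_of_eq ?_) S2
    exact sum_congr rfl fun n _ => by rw [hf n]
  obtain ⟨τ, hτ⟩ : ∃ τ : ℝ, τ = c * B.card / Real.log x ^ 2 := ⟨_, rfl⟩
  have hτ0 : 0 < τ := by rw [hτ]; positivity
  obtain ⟨G, hG⟩ : ∃ G : Finset ℕ, G = (Icc 1 (7 * x)).filter (fun n => τ ≤ f n) := ⟨_, rfl⟩
  obtain ⟨V, hV⟩ : ∃ V : ℝ, V = (B.card : ℝ) * x / Real.log x ^ 2 := ⟨_, rfl⟩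
  have hV0 : 0 < V := by rw [hV]; positivity
  have e1 : (B.card : ℝ) * x / (16 * Real.log x ^ 2) = V / 16 := by rw [hV]; field_simp
  have e2 : C * (B.card : ℝ) ^ 2 * x * Real.log (Real.log x) ^ 4 / Real.log x ^ 4 =
      C * V ^ 2 * Real.log (Real.log x) ^ 4 / x := by rw [hV]; field_simp
  rw [e1] at hS1
  rw [e2] at hS2
  -- the small values contribute little
  have hsmall : ∑ n ∈ (Icc 1 (7 * x)).filter (fun n => ¬ τ ≤ f n), f n ≤ V / 32 := by
    have h3 : ∑ n ∈ (Icc 1 (7 * x)).filter (fun n => ¬ τ ≤ f n), f n ≤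
        ∑ _n ∈ (Icc 1 (7 * x)).filter (fun n => ¬ τ ≤ f n), τ :=
      sum_le_sum fun n hn => (not_le.1 (mem_filter.1 hn).2).le
    refine h3.trans ?_
    rw [sum_const, nsmul_eq_mul]
    have h4 : (((Icc 1 (7 * x)).filter (fun n => ¬ τ ≤ f n)).card : ℝ) ≤ 7 * x := by
      have := card_filter_le (Icc 1 (7 * x)) (fun n => ¬ τ ≤ f n)
      rw [Nat.card_Icc, Nat.add_sub_cancel] at this
      exact_mod_cast this
    calc (((Icc 1 (7 * x)).filter (fun n => ¬ τ ≤ f n)).card : ℝ) * τ ≤ 7 * x * τ := by gcongr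
      _ = 7 * c * V := by rw [hτ, hV]; ring
      _ ≤ 7 * (1 / 224) * V := by gcongr
      _ = V / 32 := by ring
  have hbig : V / 32 ≤ ∑ n ∈ G, f n := by
    have h3 := sum_filter_add_sum_filter_not (Icc 1 (7 * x)) (fun n => τ ≤ f n) f
    rw [← hG] at h3
    linarith
  have hcs : (V / 32) ^ 2 ≤ (G.card : ℝ) * (C * V ^ 2 * Real.log (Real.log x) ^ 4 / x) := by
    calc (V / 32) ^ 2 ≤ (∑ n ∈ G, f n) ^ 2 := pow_le_pow_left₀ (by positivity) hbig 2
      _ ≤ (G.card : ℝ) * ∑ n ∈ G, f n ^ 2 := sq_sum_le_card_mul_sum_sq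
      _ ≤ (G.card : ℝ) * ∑ n ∈ Icc 1 (7 * x), f n ^ 2 := by
          refine mul_le_mul_of_nonneg_left ?_ (Nat.cast_nonneg _)
          refine sum_le_sum_of_subset_of_nonneg ?_ fun _ _ _ => sq_nonneg _
          rw [hG]
          exact filter_subset _ _
      _ ≤ _ := mul_le_mul_of_nonneg_left hS2 (Nat.cast_nonneg _)
  have hGc : c * x / Real.log (Real.log x) ^ 4 ≤ G.card := by
    rw [div_le_iff₀ (by positivity)]
    have h3 : (V / 32) ^ 2 * x ≤ (G.card : ℝ) * (C * V ^ 2 * Real.log (Real.log x) ^ 4) := by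
      calc (V / 32) ^ 2 * x ≤ (G.card : ℝ) * (C * V ^ 2 * Real.log (Real.log x) ^ 4 / x) * x := by gcongr
        _ = _ := by field_simp
    have h4 : V ^ 2 * (x / 1024) ≤ V ^ 2 * ((G.card : ℝ) * C * Real.log (Real.log x) ^ 4) := by
      calc V ^ 2 * (x / 1024) = (V / 32) ^ 2 * x := by ring
        _ ≤ (G.card : ℝ) * (C * V ^ 2 * Real.log (Real.log x) ^ 4) := h3
        _ = _ := by ring
    have h5 := le_of_mul_le_mul_left h4 (by positivity)
    calc c * x ≤ 1 / 1024 / C * x := by gcongr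
      _ = (x / 1024) / C := by ring
      _ ≤ ((G.card : ℝ) * C * Real.log (Real.log x) ^ 4) / C := by gcongr
      _ = G.card * Real.log (Real.log x) ^ 4 := by field_simp
  refine hGc.trans ?_
  rw [Nat.cast_le, ← Set.ncard_coe_finset]
  refine Set.ncard_le_ncard ?_ ((Set.finite_le_nat (7 * x)).subset fun n hn => hn.2.1)
  intro n hn
  rw [mem_coe, hG, mem_filter, mem_Icc] at hn
  obtain ⟨⟨-, h3⟩, h4⟩ := hn
  have h5 : (f n : ℝ) ≤ count B n := by
    rw [hf n]
    exact_mod_cast fib_le B (2 * x + 1) n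
  refine ⟨?_, h3, ?_⟩
  · -- `n` is large
    have h6 : 0 < (fibn (EE B (2 * x + 1)) n).card := by
      have : (0 : ℝ) < ((fibn (EE B (2 * x + 1)) n).card : ℝ) := by
        rw [← hf n]
        linarith
      exact_mod_cast this
    obtain ⟨z, hz⟩ := card_pos.1 h6
    unfold fibn EE at hz
    rw [mem_filter, mem_filter] at hz
    have h7 := hB _ hz.1.2.2.2.2
    have h8 := hz.2
    omega
  · rw [← hτ]
    linarith

/-- **Totient sums with values in an arbitrary set, and the converse of the known implication** -/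
theorem result : ∃ c : ℝ, 0 < c ∧ ∀ A : ℕ, ∀ᶠ x : ℕ in atTop,
    (∀ B : Finset ℕ, (∀ m ∈ B, Odd m ∧ x < m ∧ m ≤ 2 * x) → (x : ℝ) / Real.log x ^ A ≤ B.card →
      c * x / Real.log (Real.log x) ^ 4 ≤
        (({n : ℕ | 32 ≤ n ∧ n ≤ 7 * x ∧ c * B.card / Real.log x ^ 2 ≤ count B n}.ncard : ℕ) : ℝ)) ∧
    ((x : ℝ) / Real.log x ^ A ≤ (({m : ℕ | x < m ∧ m ≤ 2 * x ∧ Good m}.ncard : ℕ) : ℝ) →
      c * x / Real.log (Real.log x) ^ 4 ≤
        (({n : ℕ | 32 ≤ n ∧ n ≤ 7 * x ∧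
          c * (({m : ℕ | x < m ∧ m ≤ 2 * x ∧ Good m}.ncard : ℕ) : ℝ) / Real.log x ^ 2 ≤ admissible n}.ncard : ℕ) : ℝ)) := by
  classical
  obtain ⟨c, hc, H⟩ := main
  refine ⟨c, hc, fun A => ?_⟩
  filter_upwards [H A, eventually_ge_atTop 32] with x hx hx32
  refine ⟨hx, fun h => ?_⟩
  have hfin : {m : ℕ | x < m ∧ m ≤ 2 * x ∧ Good m}.Finite := (Set.finite_le_nat (2 * x)).subset fun m hm => hm.2.1
  have hcard : {m : ℕ | x < m ∧ m ≤ 2 * x ∧ Good m}.ncard = hfin.toFinset.card := Set.ncard_eq_toFinset_card _ hfin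
  rw [hcard] at h ⊢
  refine (hx hfin.toFinset ?_ h).trans ?_
  · intro m hm
    rw [Set.Finite.mem_toFinset] at hm
    obtain ⟨h1, h2, h3⟩ := hm
    refine ⟨?_, h1, h2⟩
    rcases h3.1.eq_two_or_odd' with h4 | h4
    · omega
    · exact h4
  · rw [Nat.cast_le]
    refine Set.ncard_le_ncard ?_ ((Set.finite_le_nat (7 * x)).subset fun n hn => hn.2.1)
    rintro n ⟨h1, h2, h3⟩
    refine ⟨h1, h2, h3.trans ?_⟩
    rw [Nat.cast_le]
    unfold count admissible
    refine Set.ncard_le_ncard ?_ ((Set.finite_lt_nat n).subset fun k hk => ?_)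
    · rintro k ⟨g1, g2, -, -, g3⟩
      rw [Set.Finite.mem_toFinset] at g3
      exact ⟨g1, g2, g3.2.2⟩
    · have := hk.2.1
      show k < n
      omega

end Pool.Agent.Results.MP_61a569_nt.ArbitrarySetsOfValues
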