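import Mathlib
import Pool.Graph.R_seed8.Y827.RO.NarF

/-!
# Totient-sum primes with fixed summands: bounded multiples of every integer, several at once

`q(n, k) = φ(k) + φ(n - k) / 2 + 1`. For every `r` there is a constant `M` such that every integer `a ≥ 1` has `r`
different multiples `k_i = t_i a`, `t_i ≤ M`, with the following property: for at least `x / (log x) ^ M` of the
primes `ℓ ≤ x`, for arbitrarily large `x`, the `r` numbers `q(4 ℓ + k_i, k_i)` (fixed `k`, and `n - k` four times a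
prime) and the `r` numbers `q(ℓ + 2 k_i, ℓ)` (fixed `n - k`, and `k` a prime) are all prime.

Proof: if `ℓ` is an odd prime and `k` is even, then `q(4 ℓ + k, k) = q(ℓ + 2 k, ℓ) = ℓ + φ(k)`. The uniform
version of the theorem of Maynard and Tao with one prime in each of a positive proportion of the blocks is applied to
the shifts `φ(k') Q i`, whose differences `φ(k') Q j` are the totients `φ(k' Q j)` of bounded multiples of `a`.
-/

set_option autoImplicit false

namespace Pool.Agent.Results.MP_61a569_nt.MultiplesOfEveryInteger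

open Finset Filter Topology
open Pool.Agent.Y827.GS
open Pool.Agent.Y827.RO

/-- `q(n, k) = φ(k) + φ(n - k) / 2 + 1` -/
def q (n k : ℕ) : ℕ := Nat.totient k + Nat.totient (n - k) / 2 + 1

/-- The number of the primes `ℓ ≤ x` for which `q(4 ℓ + k i, k i)` and `q(ℓ + 2 k i, ℓ)` are primes for all `i`. -/
noncomputable def count {r : ℕ} (k : Fin r → ℕ) (x : ℕ) : ℕ :=
  {ℓ : ℕ | ℓ ≤ x ∧ ℓ.Prime ∧ 2 < ℓ ∧ ∀ i, (q (4 * ℓ + k i) (k i)).Prime ∧ (q (ℓ + 2 * k i) ℓ).Prime}.ncard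

lemma totient_mul_dvd {n m : ℕ} (hm : 0 < m) (h : m ∣ n) : Nat.totient (n * m) = m * Nat.totient n := by
  have h1 := Nat.totient_gcd_mul_totient_mul n m
  rw [Nat.gcd_eq_right h] at h1
  have h2 : 0 < Nat.totient m := Nat.totient_pos.2 hm
  have h3 : Nat.totient m * Nat.totient (n * m) = Nat.totient m * (m * Nat.totient n) := by
    rw [h1]; ring
  exact Nat.eq_of_mul_eq_mul_left h2 h3

/-- The number of the primes `ℓ ≤ x`, `2 < ℓ`, for which all `ℓ + h i` are primes. -/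
noncomputable def prs {r : ℕ} (h : Fin r → ℕ) (x : ℕ) : ℕ :=
  {ℓ : ℕ | ℓ ≤ x ∧ 2 < ℓ ∧ ℓ.Prime ∧ ∀ i, (ℓ + h i).Prime}.ncard

theorem core (r : ℕ) (hr : 1 ≤ r) : ∃ W : ℕ, 2 ≤ W ∧ ∀ F : ℕ, 0 < F → ∃ j : Fin r → Fin W, Function.Injective j ∧
    (∀ i, 1 ≤ (j i : ℕ)) ∧
    ∃ᶠ N : ℕ in atTop, (N : ℝ) / Real.log N ^ (W + 2) ≤
      (prs (fun i => F * (W.factorial * (j i : ℕ))) (2 * N) : ℝ) := by
  obtain ⟨T, hT⟩ : ∃ T : ℕ, T = 4 * r := ⟨_, rfl⟩
  obtain ⟨K, hK1, H⟩ := lamRD T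
  have H := H (by omega) 1
  set W : ℕ := T * K with hW
  have hW4 : 4 ≤ W := by
    rw [hW, hT]
    nlinarith
  set Q : ℕ := W.factorial with hQ
  have hQ0 : 0 < Q := Nat.factorial_pos _
  refine ⟨W, by omega, fun F hF => ?_⟩
  obtain ⟨D, hD⟩ : ∃ D : ℕ, D = F * Q := ⟨_, rfl⟩
  have hD0 : 0 < D := by rw [hD]; positivity
  -- the property of a vector of indices
  obtain ⟨P, hP⟩ : ∃ P : (Fin r → Fin W) → ℕ → Prop, ∀ j N, P j N ↔ (Function.Injective j ∧ (∀ i, 1 ≤ (j i : ℕ)) ∧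
      (N : ℝ) / Real.log N ^ (W + 2) ≤ (prs (fun i => D * (j i : ℕ)) (2 * N) : ℝ)) := ⟨_, fun _ _ => Iff.rfl⟩
  have key : ∀ᶠ N : ℕ in atTop, ∃ j, P j N := by
    filter_upwards [H, eventually_ge_atTop (64 * (D * W) + 64)] with N hN hbig
    have hind : ∀ (g : Fin T) (i : Fin K), (g : ℕ) * K + (i : ℕ) < W := by
      intro g i
      have h4 := g.2
      have h5 := i.2
      have h6 : ((g : ℕ) + 1) * K ≤ T * K := Nat.mul_le_mul_right _ h4
      rw [hW]
      nlinarith
    have hinj : ∀ (g g' : Fin T) (i i' : Fin K), (g : ℕ) * K + (i : ℕ) = (g' : ℕ) * K + (i' : ℕ) → g = g' ∧ i = i' := by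
      intro g g' i i' h4
      have h8 : (g : ℕ) = g' := by
        have h9 : ((g : ℕ) * K + (i : ℕ)) / K = ((g' : ℕ) * K + (i' : ℕ)) / K := by rw [h4]
        rwa [Nat.mul_comm, Nat.mul_add_div (by omega), Nat.div_eq_of_lt i.2, Nat.mul_comm,
          Nat.mul_add_div (by omega), Nat.div_eq_of_lt i'.2, add_zero, add_zero] at h9
      have h9 : (i : ℕ) = i' := by rw [h8] at h4; omega
      exact ⟨Fin.ext h8, Fin.ext h9⟩
    have hb : ∀ (g : Fin T) (i : Fin K), D * ((g : ℕ) * K + (i : ℕ)) ≤ D * W := by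
      intro g i
      exact Nat.mul_le_mul_left _ (hind g i).le
    obtain ⟨S, c, hS, hcnt⟩ := hN (fun g i => (1, ((D * ((g : ℕ) * K + (i : ℕ)) : ℕ) : ℤ)))
      (by
        intro z z' h
        have h1 := (Prod.ext_iff.1 h).2
        simp only at h1
        have h2 : D * ((z.1 : ℕ) * K + (z.2 : ℕ)) = D * ((z'.1 : ℕ) * K + (z'.2 : ℕ)) := by exact_mod_cast h1
        have h3 := Nat.eq_of_mul_eq_mul_left hD0 h2
        obtain ⟨h4, h5⟩ := hinj _ _ _ _ h3
        exact Prod.ext h4 h5)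
      (by
        intro g i
        have h1 := hb g i
        refine ⟨one_ne_zero, by simp, ?_, isCoprime_one_left, ?_⟩
        · have h2 : D * ((g : ℕ) * K + (i : ℕ)) ≤ N := by omega
          have h3 : ((D * ((g : ℕ) * K + (i : ℕ)) : ℕ) : ℤ) ≤ N := by exact_mod_cast h2
          refine le_trans (le_of_eq ?_) h3
          exact abs_of_nonneg (Nat.cast_nonneg _)
        · intro t h2 h3
          have h4 : (0 : ℝ) ≤ ((((D * ((g : ℕ) * K + (i : ℕ)) : ℕ) : ℤ)) : ℝ) := by positivity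
          simp only [Int.cast_one, one_mul]
          have h5 : (0 : ℝ) ≤ N := Nat.cast_nonneg _
          linarith)
      (by
        intro p hp hpW
        refine ⟨1, fun g i hd => ?_⟩
        simp only [one_mul] at hd
        have h1 : (p : ℤ) ∣ ((D * ((g : ℕ) * K + (i : ℕ)) : ℕ) : ℤ) := by
          have h2 : p ∣ Q := hp.dvd_factorial.2 hpW
          have h3 : p ∣ D * ((g : ℕ) * K + (i : ℕ)) := by
            rw [hD]
            exact ((h2.mul_left F).mul_right _)
          exact_mod_cast h3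
        have h2 : (p : ℤ) ∣ 1 := by
          have := dvd_sub hd h1
          simpa using this
        have h3 : p ∣ 1 := by exact_mod_cast h2
        exact hp.one_lt.ne' (Nat.dvd_one.1 h3))
    have hSr : r + 1 ≤ S.card := by
      by_contra hcon
      have h1 : (S.card : ℝ) ≤ r := by exact_mod_cast (by omega : S.card ≤ r)
      have h2 : (T : ℝ) = 4 * r := by rw [hT]; push_cast; ring
      rw [h2] at hS
      have h3 : (1 : ℝ) ≤ r := by exact_mod_cast hr
      linarith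
    -- the positions
    set pos : Fin T → ℕ := fun g => (g : ℕ) * K + (c g : ℕ) with hpos
    have hposinj : Function.Injective pos := fun g g' h => (hinj _ _ _ _ h).1
    have hI : r + 1 ≤ (S.image pos).card := by rwa [card_image_of_injective _ hposinj]
    obtain ⟨I, hIS, hIc⟩ := exists_subset_card_eq hI
    set u : Fin (r + 1) → ℕ := fun i => I.orderEmbOfFin hIc i with hu
    have humem : ∀ i, u i ∈ S.image pos := fun i => hIS (I.orderEmbOfFin_mem hIc i)
    have hu0 : ∀ i : Fin r, u 0 < u i.succ := by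
      intro i
      exact (I.orderEmbOfFin hIc).lt_iff_lt.2 (Fin.succ_pos i)
    have huinj : Function.Injective u := (I.orderEmbOfFin hIc).injective
    have huW : ∀ i, u i < W := by
      intro i
      obtain ⟨g, -, hg⟩ := mem_image.1 (humem i)
      rw [← hg]
      exact hind g (c g)
    refine ⟨fun i => ⟨u i.succ - u 0, (Nat.sub_le _ _).trans_lt (huW _)⟩, ?_⟩
    rw [hP]
    refine ⟨?_, fun i => ?_, ?_⟩
    · intro i i' h
      have h1 : u i.succ - u 0 = u i'.succ - u 0 := congrArg Fin.val h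
      have h2 := hu0 i
      have h3 := hu0 i'
      exact Fin.succ_injective _ (huinj (by omega))
    · show 1 ≤ u i.succ - u 0
      have := hu0 i
      omega
    refine hcnt.trans ?_
    rw [Nat.cast_le, prs, cntN, ← Set.ncard_coe_finset]
    have hfin : {ℓ : ℕ | ℓ ≤ 2 * N ∧ 2 < ℓ ∧ ℓ.Prime ∧ ∀ i : Fin r, (ℓ + D * (u i.succ - u 0)).Prime}.Finite :=
      (Set.finite_Iic (2 * N)).subset fun N hN => hN.1
    have hQ2 : 2 ∣ D := by
      rw [hD]
      exact (Nat.dvd_factorial (by norm_num) (by omega : 2 ≤ W)).mul_left F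
    have hpr : ∀ m ∈ (Icc 1 N).filter (fun m : ℕ => ∀ f ∈ S.image (fun g : Fin T => ((1 : ℤ),
        ((D * ((g : ℕ) * K + (c g : ℕ)) : ℕ) : ℤ))), (f.1 * (m : ℤ) + f.2).toNat.Prime),
        ∀ i, (m + D * u i).Prime := by
      intro m hm i
      obtain ⟨w, hw, hwi⟩ := mem_image.1 (humem i)
      have h2 := (mem_filter.1 hm).2 (1, ((D * ((w : ℕ) * K + (c w : ℕ)) : ℕ) : ℤ)) (mem_image.2 ⟨w, hw, rfl⟩)
      have h3 : ((1 : ℤ) * (m : ℤ) + ((D * ((w : ℕ) * K + (c w : ℕ)) : ℕ) : ℤ)).toNat =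
          m + D * ((w : ℕ) * K + (c w : ℕ)) := by
        rw [one_mul, ← Nat.cast_add, Int.toNat_natCast]
      rw [h3] at h2
      rw [← hwi]
      exact h2
    refine Set.ncard_le_ncard_of_injOn (fun m : ℕ => m + D * u 0) ?_ ?_ hfin
    · intro m hm
      rw [mem_coe] at hm
      have hpu := hpr m hm 0
      have hmN := (mem_Icc.1 (mem_filter.1 hm).1).2
      have h5 : D * u 0 ≤ D * W := Nat.mul_le_mul_left _ (huW 0).le
      have h6 : ∀ i : Fin r, m + D * u 0 + D * (u i.succ - u 0) = m + D * u i.succ := by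
        intro i
        rw [add_assoc, ← mul_add, Nat.add_sub_cancel' (hu0 i).le]
      refine ⟨by show m + D * u 0 ≤ 2 * N; omega, ?_, hpu, fun i => ?_⟩
      · by_contra hcon
        have h7 : m + D * u 0 = 2 := by
          have := hpu.two_le
          have h8 : ¬ 2 < m + D * u 0 := hcon
          omega
        obtain ⟨i⟩ : Nonempty (Fin r) := ⟨⟨0, by omega⟩⟩
        have hpv := hpr m hm i.succ
        have h8 : 2 ∣ m + D * u i.succ := by
          rw [← h6, h7]
          exact (dvd_refl 2).add (hQ2.mul_right _)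
        have h9 := (Nat.prime_dvd_prime_iff_eq Nat.prime_two hpv).1 h8
        have h10 : 0 < D * (u i.succ - u 0) := Nat.mul_pos hD0 (by have := hu0 i; omega)
        have h11 := h6 i
        omega
      · show (m + D * u 0 + D * (u i.succ - u 0)).Prime
        rw [h6]
        exact hpr m hm i.succ
    · intro m _ m' _ hmm
      simp only at hmm
      omega
  -- pigeonhole
  have h1 : ∃ j, ∃ᶠ N : ℕ in atTop, P j N := by
    by_contra hcon
    push Not at hcon
    have h2 : ∀ᶠ N : ℕ in atTop, ∀ j, ¬ P j N := eventually_all.2 hcon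
    obtain ⟨N, hN1, hN2⟩ := (key.and h2).exists
    obtain ⟨j, hjN⟩ := hN1
    exact hN2 j hjN
  obtain ⟨j, hjf⟩ := h1
  obtain ⟨N, hN⟩ := hjf.exists
  rw [hP] at hN
  refine ⟨j, hN.1, hN.2.1, hjf.mono fun N hN => ?_⟩
  rw [hP] at hN
  have e : (fun i => F * (Q * (j i : ℕ))) = fun i => D * (j i : ℕ) := by
    funext i
    rw [hD]; ring
  rw [e]
  exact hN.2.2

lemma q_fst {k ℓ : ℕ} (hℓ : ℓ.Prime) (h2 : 2 < ℓ) : q (4 * ℓ + k) k = ℓ + Nat.totient k := by
  unfold q
  have e : 4 * ℓ + k - k = 4 * ℓ := by omega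
  have hc : Nat.Coprime 4 ℓ := by
    have : Nat.Coprime 2 ℓ := (Nat.coprime_primes Nat.prime_two hℓ).2 (by omega)
    exact Nat.Coprime.pow_left 2 this
  have h4 : Nat.totient 4 = 2 := by decide
  rw [e, Nat.totient_mul hc, h4, Nat.totient_prime hℓ, Nat.mul_div_cancel_left _ (by norm_num)]
  omega

lemma q_snd {k ℓ : ℕ} (hk : 2 ∣ k) (hℓ : ℓ.Prime) : q (ℓ + 2 * k) ℓ = ℓ + Nat.totient k := by
  unfold q
  have e : ℓ + 2 * k - ℓ = 2 * k := by omega
  have h2 : Nat.totient (2 * k) = 2 * Nat.totient k := by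
    rw [mul_comm 2 k]
    exact totient_mul_dvd (by norm_num) hk
  rw [e, h2, Nat.mul_div_cancel_left _ (by norm_num), Nat.totient_prime hℓ]
  have := hℓ.two_le
  omega

lemma freq_scale {c m M : ℕ} (hc : 1 ≤ c) (hm : m < M) {F G : ℕ → ℕ}
    (h : ∃ᶠ N : ℕ in atTop, (N : ℝ) / Real.log N ^ m ≤ (F N : ℝ)) (hFG : ∀ᶠ N : ℕ in atTop, F N ≤ G (c * N)) :
    ∃ᶠ x : ℕ in atTop, (x : ℝ) / Real.log x ^ M ≤ (G x : ℝ) := by
  have htend : Tendsto (fun x : ℕ => c * x) atTop atTop := tendsto_id.const_mul_atTop' (by omega)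
  have hlogev : ∀ᶠ x : ℕ in atTop, (c : ℝ) + 1 ≤ Real.log x :=
    (Real.tendsto_log_atTop.comp tendsto_natCast_atTop_atTop).eventually_ge_atTop _
  refine htend.frequently ?_
  refine (h.and_eventually ((hFG.and hlogev).and (eventually_ge_atTop 1))).mono ?_
  rintro N ⟨h1, ⟨h2, h3⟩, h4⟩
  have hN : (1 : ℝ) ≤ N := by exact_mod_cast h4
  have hc1 : (1 : ℝ) ≤ c := by exact_mod_cast hc
  have hl1 : 1 ≤ Real.log N := by linarith
  have hl2 : Real.log N ≤ Real.log ((c * N : ℕ) : ℝ) := by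
    apply Real.log_le_log (by linarith)
    push_cast
    nlinarith
  have h5 : ((c * N : ℕ) : ℝ) / Real.log ((c * N : ℕ) : ℝ) ^ M ≤ (N : ℝ) / Real.log N ^ m := by
    have hp1 : 0 < Real.log ((c * N : ℕ) : ℝ) ^ M := pow_pos (by linarith) _
    have hp2 : 0 < Real.log N ^ m := pow_pos (by linarith) _
    rw [div_le_div_iff₀ hp1 hp2]
    have h6 : Real.log N ^ M ≤ Real.log ((c * N : ℕ) : ℝ) ^ M := pow_le_pow_left₀ (by linarith) hl2 _
    have h7 : (c : ℝ) * Real.log N ^ m ≤ Real.log N ^ M := by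
      calc (c : ℝ) * Real.log N ^ m ≤ Real.log N * Real.log N ^ m := by gcongr; linarith
        _ = Real.log N ^ (m + 1) := by ring
        _ ≤ Real.log N ^ M := pow_le_pow_right₀ hl1 hm
    push_cast
    push_cast at h6
    calc (c : ℝ) * N * Real.log N ^ m = N * ((c : ℝ) * Real.log N ^ m) := by ring
      _ ≤ N * Real.log (c * N) ^ M := by gcongr; exact h7.trans h6
  refine h5.trans (h1.trans ?_)
  exact_mod_cast h2

/-- For every `r` there is a constant `M` such that every integer `a ≥ 1` has `r` different multiples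
`k i = t i * a`, `1 ≤ t i ≤ M`, for which, for arbitrarily large `x`, there are at least `x / (log x) ^ M` primes
`ℓ ≤ x` such that the numbers `q(4 ℓ + k i, k i)` and `q(ℓ + 2 k i, ℓ)` are prime for all `i` simultaneously. -/
theorem result (r : ℕ) : ∃ M : ℕ, ∀ a : ℕ, 1 ≤ a → ∃ t : Fin r → ℕ, Function.Injective t ∧
    (∀ i, 1 ≤ t i ∧ t i ≤ M) ∧
    ∃ᶠ x : ℕ in atTop, (x : ℝ) / Real.log x ^ M ≤ (count (fun i => t i * a) x : ℝ) := by
  -- it is enough to treat `r + 1`
  obtain ⟨W, hW, H⟩ := core (r + 1) (by omega)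
  set Q : ℕ := W.factorial with hQ
  have hQ0 : 0 < Q := Nat.factorial_pos _
  refine ⟨Q ^ 3 * W + W + 3, fun a ha => ?_⟩
  obtain ⟨j, hjinj, hj1, hf⟩ := H (Nat.totient (a * Q ^ 2)) (Nat.totient_pos.2 (by positivity))
  have hjQ : ∀ i, Q * (j i : ℕ) ∣ a * Q ^ 2 := by
    intro i
    have h1 : (j i : ℕ) ∣ Q := Nat.dvd_factorial (hj1 i) (j i).2.le
    rw [sq]
    exact (Nat.mul_dvd_mul (dvd_refl Q) h1).mul_left a
  obtain ⟨k, hk⟩ : ∃ k : Fin (r + 1) → ℕ, ∀ i, k i = Q ^ 3 * (j i : ℕ) * a := ⟨_, fun _ => rfl⟩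
  have hφ : ∀ i, Nat.totient (k i) = Nat.totient (a * Q ^ 2) * (Q * (j i : ℕ)) := by
    intro i
    have h0 := hj1 i
    have h1 := totient_mul_dvd (by positivity : 0 < Q * (j i : ℕ)) (hjQ i)
    rw [mul_comm, ← h1, hk]
    congr 1
    ring
  have hk2 : ∀ i, 2 ∣ k i := by
    intro i
    rw [hk]
    have h1 : 2 ∣ Q := Nat.dvd_factorial (by norm_num) hW
    exact ((h1.trans (dvd_pow_self _ (by norm_num))).mul_right _).mul_right _
  have e : (fun i => Nat.totient (a * Q ^ 2) * (Q * (j i : ℕ))) = fun i => Nat.totient (k i) := by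
    funext i
    exact (hφ i).symm
  rw [e] at hf
  refine ⟨fun i => Q ^ 3 * (j i.castSucc : ℕ), ?_, fun i => ⟨?_, ?_⟩, ?_⟩
  · intro i i' h
    simp only at h
    have h1 := Nat.eq_of_mul_eq_mul_left (by positivity : 0 < Q ^ 3) h
    exact Fin.castSucc_injective _ (hjinj (Fin.ext h1))
  · have h0 := hj1 i.castSucc
    exact Nat.succ_le_of_lt (by positivity)
  · have := Nat.mul_le_mul_left (Q ^ 3) (j i.castSucc).2.le
    show Q ^ 3 * (j i.castSucc : ℕ) ≤ _
    omega
  · refine freq_scale (c := 2) (m := W + 2) (by norm_num) (by omega) hf ?_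
    filter_upwards with N
    have hfin : {ℓ : ℕ | ℓ ≤ 2 * N ∧ ℓ.Prime ∧ 2 < ℓ ∧ ∀ i : Fin r,
        (q (4 * ℓ + Q ^ 3 * (j i.castSucc : ℕ) * a) (Q ^ 3 * (j i.castSucc : ℕ) * a)).Prime ∧
        (q (ℓ + 2 * (Q ^ 3 * (j i.castSucc : ℕ) * a)) ℓ).Prime}.Finite :=
      (Set.finite_Iic (2 * N)).subset fun n hn => hn.1
    refine Set.ncard_le_ncard ?_ hfin
    rintro ℓ ⟨h1, h2, h3, h4⟩
    refine ⟨h1, h3, h2, fun i => ?_⟩
    simp only
    rw [← hk]
    refine ⟨?_, ?_⟩
    · rw [q_fst h3 h2]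
      exact h4 i.castSucc
    · rw [q_snd (hk2 _) h3]
      exact h4 i.castSucc

end Pool.Agent.Results.MP_61a569_nt.MultiplesOfEveryInteger
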