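import Pool.Agent.H56.PD.Sets

/-!
# Primes `q` with `p_q - q + h_1, ..., p_q - q + h_s` prime, for shifts near the values of arbitrary polynomials in several
# variables at integers with restricted digits, for many sets of primes `q` at once

The problem asks for primes `q` of the form `q(n,k)` with `p_q - q - 1` and `p_q - q + 1` prime. Here `-1` and `1` are replaced
by integers `Y_1, ..., Y_s` from windows of radius `(log N) ^ D` around `a_i + F_i(x_i)`, where `F_1, ..., F_s` are ANY
integer polynomials of positive degree in any number of variables (for instance squares, products `x y z`, determinants,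
norm forms, sums of like powers) and the digits in base `b` of the coordinates of the vectors `x_i` are restricted to
arbitrary sets with at least two elements (for instance: all digits are `0` or `1`); there may be as few as `N ^ δ` such
vectors. The numbers `q` run through arbitrary sets, for example through the primes `q(n,k)`, `1 ≤ k < n - 2`, for all `n`
of an arbitrary set of at most `(log N) ^ T` integers at once. For almost all `(x_1, ..., x_s)` and ALL `Y_i` in the
windows, all these sets and all `X ≤ N`, the number of the `q` in the set with `p_q - q ≤ X` for which all the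
`p_q - q + Y_i` are primes is the number predicted by the sieve by the primes up to a power of `log N`, with an error which
saves an arbitrary power of the logarithm.

Method. The large spectrum of the values is thin (module `Pool.Agent.H56.PD`: Weyl differencing with respect to short
blocks of the lowest and of the highest digits, in all combinations). In `Pool.Agent.H56.PD.ML` and `Pool.Agent.H56.PD.Sets`
the maximal estimate for one form with arbitrary weights is derived from this, for all the shifts in the windows at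
once; the passage to several forms and to the primes is `Pool.Agent.V11251.DS` (library). The map `m ↦ p_m - m` is
injective for `m ≥ 2`.
-/

set_option autoImplicit false

namespace Pool.Agent.Results.MP_61a569_nt.ShiftsNearPolynomials

open Finset

/-- The `m`-th prime: `p 1 = 2`, `p 2 = 3`. -/
noncomputable def p (m : ℕ) : ℕ := Nat.nth Nat.Prime (m - 1)

open Classical in
/-- The sieve model of the indicator function of the primes: `1 / (log x ∏_{p ≤ z} (1 - 1 / p))` if `x ≥ 2` has no prime
factor `≤ z`, and `0` if `x ≤ 0` or if `x` has a prime factor `≤ z` (for `x = 1` the logarithm is replaced by `log 2`). -/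
noncomputable def model (z : ℕ) (x : ℤ) : ℝ :=
  if 1 ≤ x ∧ ∀ p : ℕ, p.Prime → p ≤ z → ¬ (p : ℤ) ∣ x then
    1 / (Real.log ((max x 2 : ℤ) : ℝ) * ∏ p ∈ (Icc 1 z).filter Nat.Prime, (1 - 1 / (p : ℝ))) else 0

open Classical in
/-- The elements `m ≥ 2` of the set `Q` with `p_m - m ≤ X` (then `m ≤ X + 1`). -/
noncomputable def upTo (Q : Set ℕ) (X : ℕ) : Finset ℕ := (Icc 2 (X + 1)).filter (fun m => m ∈ Q ∧ (p m : ℤ) - m ≤ X)

/-- The elements `m ≥ 2` of `Q` with `p_m - m ≤ X` for which all the numbers `p_m - m + Y i` are primes. -/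
noncomputable def common {s : ℕ} (Q : Set ℕ) (Y : Fin s → ℤ) (X : ℕ) : Finset ℕ :=
  (upTo Q X).filter (fun m => ∀ i, ((p m : ℤ) - m + Y i).toNat.Prime)

/-- For the first `L` of the sets `Q 0, Q 1, ...` and for all `X ≤ N`, the number of the `m ∈ Q l`, `p_m - m ≤ X`, for which
all the `p_m - m + Y i` are primes is equal to the sum of the products of the models of `p_m - m + Y i` over the
`m ∈ Q l` with `p_m - m ≤ X`, up to an error of at most `N / log ^ U N`. -/
def Good {s : ℕ} (z U L N : ℕ) (Q : ℕ → Set ℕ) (Y : Fin s → ℤ) : Prop :=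
  ∀ l < L, ∀ X ≤ N, |((common (Q l) Y X).card : ℝ) - ∑ m ∈ upTo (Q l) X, ∏ i, model z ((p m : ℤ) - m + Y i)| ≤
    N / Real.log N ^ U

/-- the integers `x < b ^ k` whose digits in base `b` are allowed: the digit at `b ^ j` is in `A j` for all `j < k` -/
def withDigits (b k : ℕ) (A : ℕ → Finset ℕ) : Finset ℕ := (range (b ^ k)).filter (fun x => ∀ j < k, x / b ^ j % b ∈ A j)

lemma step (i : ℕ) (hi : 1 ≤ i) : Nat.nth Nat.Prime i + 2 ≤ Nat.nth Nat.Prime (i + 1) := by
  have h1 : Nat.nth Nat.Prime i < Nat.nth Nat.Prime (i + 1) := Nat.nth_strictMono Nat.infinite_setOfPred_prime (Nat.lt_succ_self i)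
  have h2 : Nat.nth Nat.Prime 0 < Nat.nth Nat.Prime i := Nat.nth_strictMono Nat.infinite_setOfPred_prime (by omega)
  have h3 : (Nat.nth Nat.Prime 0).Prime := Nat.prime_nth_prime 0
  have h4 : (Nat.nth Nat.Prime i).Prime := Nat.prime_nth_prime i
  have h5 : (Nat.nth Nat.Prime (i + 1)).Prime := Nat.prime_nth_prime (i + 1)
  have h6 := h3.two_le
  rcases h4.eq_two_or_odd with h7 | h7
  · omega
  rcases h5.eq_two_or_odd with h8 | h8
  · omega
  omega

lemma steps (i d : ℕ) (hi : 1 ≤ i) : Nat.nth Nat.Prime i + 2 * d ≤ Nat.nth Nat.Prime (i + d) := by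
  induction d with
  | zero => simp
  | succ d ih =>
    have := step (i + d) (by omega)
    have e : i + (d + 1) = i + d + 1 := by omega
    rw [e]
    omega

lemma inj {m m' : ℕ} (hm : 2 ≤ m) (hlt : m < m') : (p m : ℤ) - m < (p m' : ℤ) - m' := by
  unfold p
  have h1 := steps (m - 1) (m' - m) (by omega)
  have e : m - 1 + (m' - m) = m' - 1 := by omega
  rw [e] at h1
  omega

lemma pos {m : ℕ} (hm : 1 ≤ m) : 0 < (p m : ℤ) - m := by
  unfold p
  have := Nat.add_two_le_nth_prime (m - 1)
  omega

lemma ge_sub {m : ℕ} (hm : 2 ≤ m) : (m : ℤ) - 1 ≤ (p m : ℤ) - m := by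
  have h1 := steps 1 (m - 2) le_rfl
  have e : 1 + (m - 2) = m - 1 := by omega
  rw [e] at h1
  have h2 : Nat.nth Nat.Prime 1 = 3 := Nat.nth_prime_one_eq_three
  unfold p
  omega

/-- the positions: the numbers `p_m - m`, `m ∈ Q`, `m ≥ 2` -/
def positions (Q : Set ℕ) : Set ℕ := {v | ∃ m ∈ Q, 2 ≤ m ∧ (v : ℤ) = (p m : ℤ) - m}

lemma good_of {s : ℕ} (N z U L : ℕ) (Q : ℕ → Set ℕ) (Y : Fin s → ℤ)
    (h : ∀ l < L, ∀ X ≤ N, Pool.Agent.V11251.DS.DC X z (Pool.Agent.V11251.DS.ind (positions (Q l))) (fun _ => 1) Y ≤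
      N / Real.log N ^ U) : Good z U L N Q Y := by
  classical
  intro l hl X hX
  have h2 := h l hl X hX
  obtain ⟨f, hf⟩ : ∃ f : ℕ → ℕ, f = fun m => ((p m : ℤ) - m).toNat := ⟨_, rfl⟩
  have hfz : ∀ m : ℕ, 2 ≤ m → ((f m : ℕ) : ℤ) = (p m : ℤ) - m := by
    intro m hm
    rw [hf]
    exact Int.toNat_of_nonneg (pos (by omega)).le
  have hinj : Set.InjOn f {m | 2 ≤ m} := by
    intro m hm m' hm' h3
    have g1 := hfz m hm
    have g2 := hfz m' hm'
    rw [h3, g2] at g1
    rcases lt_trichotomy m m' with h4 | h4 | h4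
    · have := inj hm h4
      omega
    · exact h4
    · have := inj hm' h4
      omega
  have hup : ∀ m, m ∈ upTo (Q l) X ↔ 2 ≤ m ∧ m ∈ Q l ∧ (p m : ℤ) - m ≤ X := by
    intro m
    unfold upTo
    rw [mem_filter, mem_Icc]
    constructor
    · rintro ⟨⟨h3, _⟩, h4, h5⟩
      exact ⟨h3, h4, h5⟩
    · rintro ⟨h3, h4, h5⟩
      have := ge_sub h3
      exact ⟨⟨h3, by omega⟩, h4, h5⟩
  rw [Pool.Agent.V11251.DS.DC_set' _ X z _ _ ((upTo (Q l) X).image f) ((common (Q l) Y X).image f)
    (fun n => ∏ i, model z (n + Y i))] at h2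
  · rw [card_image_of_injOn, sum_image] at h2
    · refine le_trans (le_of_eq ?_) h2
      congr 2
      apply sum_congr rfl
      intro m hm
      rw [hfz m ((hup m).1 hm).1]
    · intro m hm m' hm' h3
      exact hinj ((hup m).1 (mem_coe.1 hm)).1 ((hup m').1 (mem_coe.1 hm')).1 h3
    · intro m hm m' hm' h3
      unfold common at hm hm'
      rw [mem_coe, mem_filter] at hm hm'
      exact hinj ((hup m).1 hm.1).1 ((hup m').1 hm'.1).1 h3
  · intro v
    rw [mem_image, mem_Icc]
    constructor
    · rintro ⟨m, hm, rfl⟩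
      obtain ⟨h3, h4, h5⟩ := (hup m).1 hm
      have h6 := hfz m h3
      have h7 := pos (show 1 ≤ m by omega)
      refine ⟨⟨by omega, by omega⟩, m, h4, h3, h6⟩
    · rintro ⟨⟨h3, h4⟩, m, h5, h6, h7⟩
      refine ⟨m, (hup m).2 ⟨h6, h5, by omega⟩, ?_⟩
      have := hfz m h6
      omega
  · intro v
    rw [mem_image, mem_Icc]
    constructor
    · rintro ⟨m, hm, rfl⟩
      unfold common at hm
      rw [mem_filter] at hm
      obtain ⟨h3, h4, h5⟩ := (hup m).1 hm.1
      have h6 := hfz m h3
      have h7 := pos (show 1 ≤ m by omega)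
      refine ⟨⟨by omega, by omega⟩, ⟨m, h4, h3, h6⟩, fun i => ?_⟩
      rw [one_mul, h6]
      exact hm.2 i
    · rintro ⟨⟨h3, h4⟩, ⟨m, h5, h6, h7⟩, h8⟩
      refine ⟨m, ?_, ?_⟩
      · unfold common
        rw [mem_filter]
        refine ⟨(hup m).2 ⟨h6, h5, by omega⟩, fun i => ?_⟩
        have := h8 i
        rw [one_mul, h7] at this
        exact this
      · have := hfz m h6
        omega
  · intro v _
    apply prod_congr rfl
    intro i _
    rw [one_mul]
    rfl

open Classical in
/-- Let `F i`, `1 ≤ i ≤ s`, be polynomials with integer coefficients in `n` variables, of total degrees `d i ≥ 1`, `b ≥ 2`,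
and let `B`, `D`, `T`, `U`, `W` be fixed. Let `E` be a sufficiently large exponent, let `N` be large,
`log ^ E N ≤ z ≤ log ^ (E + 1) N`, let the numbers of digits `k i` satisfy `b ^ (k i * d i) ≤ B N` and
`N ≤ b ^ (k i * d i) log ^ W N`, let `A i v j ⊆ {0, ..., b - 1}` be ARBITRARY sets with at least two elements, let `a i` be
integers with `|a i| ≤ B N`, and let `Q 0, ..., Q (L - 1)`, `L ≤ log ^ T N`, be ARBITRARY sets of integers, for example the
sets of the primes `q(n,k)`, `1 ≤ k < n - 2`, for at most `log ^ T N` integers `n`. Then all the families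
`x = (x 1, ..., x s)` of vectors `x i = (x i 1, ..., x i n)` for which the digit of `x i v` at `b ^ j` is in `A i v j` for
all `v` and `j < k i`, with the exception of a proportion of at most `1 / log ^ U N` of them, have the following property:
`Good z U L N Q Y` for ALL integers `Y 1, ..., Y s` with `|Y i - (a i + F i (x i))| ≤ log ^ D N`. -/
theorem result (s b n : ℕ) (hb : 2 ≤ b) (F : Fin s → MvPolynomial (Fin n) ℤ) (hF : ∀ i, 1 ≤ (F i).totalDegree)
    (B D T U W : ℕ) :
    ∃ E₀ : ℕ, ∀ E : ℕ, E₀ ≤ E → ∃ N₀ : ℕ, ∀ N : ℕ, N₀ ≤ N → ∀ k : Fin s → ℕ,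
      (∀ i, b ^ (k i * (F i).totalDegree) ≤ B * N) →
      (∀ i, (N : ℝ) ≤ (b : ℝ) ^ (k i * (F i).totalDegree) * Real.log N ^ W) →
      ∀ A : Fin s → Fin n → ℕ → Finset ℕ, (∀ i v, ∀ j < k i, A i v j ⊆ range b ∧ 2 ≤ (A i v j).card) →
      ∀ a : Fin s → ℤ, (∀ i, |a i| ≤ (B : ℤ) * N) →
      ∀ z : ℕ, Real.log N ^ E ≤ z → (z : ℝ) ≤ Real.log N ^ (E + 1) →
      ∀ L : ℕ, (L : ℝ) ≤ Real.log N ^ T → ∀ Q : ℕ → Set ℕ,
      (((Fintype.piFinset fun i => Fintype.piFinset fun v => withDigits b (k i) (A i v)).filter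
        fun x : Fin s → Fin n → ℕ => ¬ ∀ Y : Fin s → ℤ,
          (∀ i, |(Y i : ℝ) - (a i + MvPolynomial.eval (fun v => (x i v : ℤ)) (F i) : ℤ)| ≤ Real.log N ^ D) →
            Good z U L N Q Y).card : ℝ) ≤
        ((Fintype.piFinset fun i => Fintype.piFinset fun v => withDigits b (k i) (A i v)).card : ℝ) / Real.log N ^ U := by
  obtain ⟨E₀, h⟩ := Pool.Agent.H56.PD.sets s b n hb F hF (fun _ => 1) (fun _ => by norm_num) B D T U W
  refine ⟨E₀, fun E hE => ?_⟩
  obtain ⟨N₀, h1⟩ := h E hE
  refine ⟨N₀, fun N hN k hk1 hk2 A hA a ha z hz1 hz2 L hL Q => ?_⟩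
  refine h1 N hN k (fun i => by rw [Nat.mul_comm]; exact hk1 i) (fun i => by rw [Nat.mul_comm]; exact hk2 i) A hA a ha
    z hz1 hz2 L hL (fun l => positions (Q l))
    (fun i => Fintype.piFinset fun v => Pool.Agent.H56.PD.withDigits b (k i) (A i v)) (fun _ => rfl)
    (fun x : Fin s → Fin n → ℕ => ¬ ∀ Y : Fin s → ℤ,
          (∀ i, |(Y i : ℝ) - (a i + MvPolynomial.eval (fun v => (x i v : ℤ)) (F i) : ℤ)| ≤ Real.log N ^ D) →
            Good z U L N Q Y) _ ?_
  intro x _ hbad hgood
  apply hbad
  intro Y hY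
  exact good_of N z U L Q Y (hgood Y hY)

end Pool.Agent.Results.MP_61a569_nt.ShiftsNearPolynomials
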