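import Mathlib
import Pool.Agent.H48.SS.Final

/-!
# Totient-sum primes: tiny summands suffice for many integers `n`

`q(n, k) = φ(k) + φ(n - k) / 2 + 1`. There are `c, C > 0` such that for every `A` and all large `x`, for at least
`c x / (log log x) ^ 2` integers `n ≤ x` there are at least `(log n) ^ A` integers `k ≤ exp (C log n / log log n)` for
which `q(n, k)` is prime, and likewise with `n - k ≤ exp (C log n / log log n)` in place of `k`. So for these `n` the
first condition of the question holds with `k` (or with `n - k`) of size `n ^ (o(1))`, and for many such `k`.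

Proof: `q(4 ℓ + k, k) = q(ℓ + 2 k, ℓ) = ℓ + φ(k)` for odd primes `ℓ` and `4 ∣ k`. Let `P` be the product of the primes
up to `W = C log x / log log x`. The numbers `k = P ^ 2 u j`, `u` a prime, `j < W`, have `φ(k) = φ(P ^ 2) (u - 1) j`. All
the numbers `n + φ(P ^ 2) (u - 1) i`, `i < W`, are prime to `P` if one of them is, and therefore two of them are prime for
many `n`. The second moment is bounded by an upper bound sieve for four linear forms.
-/

set_option autoImplicit false

namespace Pool.Agent.Results.MP_61a569_nt.TinySummands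

open Finset Filter Topology
open Pool.Agent.H48.SS

/-- `q(n, k) = φ(k) + φ(n - k) / 2 + 1` -/
def q (n k : ℕ) : ℕ := Nat.totient k + Nat.totient (n - k) / 2 + 1

/-- The number of the `k`, `1 ≤ k < n - 2`, with `k ≤ exp (C log n / log log n)` for which `q(n, k)` is prime. -/
noncomputable def small (C : ℝ) (n : ℕ) : ℕ :=
  {k : ℕ | 1 ≤ k ∧ k < n - 2 ∧ (k : ℝ) ≤ Real.exp (C * Real.log n / Real.log (Real.log n)) ∧ (q n k).Prime}.ncard

/-- The number of the `k`, `1 ≤ k < n - 2`, with `n - k ≤ exp (C log n / log log n)` for which `q(n, k)` is prime. -/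
noncomputable def cosmall (C : ℝ) (n : ℕ) : ℕ :=
  {k : ℕ | 1 ≤ k ∧ k < n - 2 ∧ ((n : ℝ) - k) ≤ Real.exp (C * Real.log n / Real.log (Real.log n)) ∧ (q n k).Prime}.ncard

lemma odd_of {l k : ℕ} (h4 : 4 ∣ k) (hk : 0 < k) (hl : l.Prime) (hlk : (l + Nat.totient k).Prime) : Odd l := by
  rcases hl.eq_two_or_odd' with h | h
  · exfalso
    have h2 : 2 < k := by
      have := Nat.le_of_dvd hk h4
      omega
    have h3 := Nat.totient_even h2
    have h5 := Nat.totient_pos.2 hk
    rcases hlk.eq_two_or_odd' with h6 | h6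
    · omega
    · rw [h] at h6
      have h7 : Even (2 + Nat.totient k) := Even.add even_two h3
      exact (Nat.not_odd_iff_even.2 h7) h6
  · exact h

lemma q_small {l k : ℕ} (hl : l.Prime) (ho : Odd l) : q (4 * l + k) k = l + Nat.totient k := by
  unfold q
  have h1 : 4 * l + k - k = 4 * l := by omega
  have hco : Nat.Coprime 4 l := by
    have : Nat.Coprime 2 l := Nat.coprime_two_left.2 ho
    exact Nat.Coprime.pow_left 2 this
  have h4 : Nat.totient 4 = 2 := by decide
  rw [h1, Nat.totient_mul hco, Nat.totient_prime hl, h4]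
  have := hl.two_le
  omega

lemma q_cosmall {l k : ℕ} (h4 : 4 ∣ k) (hl : l.Prime) : q (l + 2 * k) l = l + Nat.totient k := by
  unfold q
  have h1 : l + 2 * k - l = 2 * k := by omega
  have h2 : 2 ∣ k := Dvd.dvd.trans (by norm_num) h4
  rw [h1, Nat.totient_mul_of_prime_of_dvd Nat.prime_two h2, Nat.totient_prime hl]
  have := hl.two_le
  omega

/-- **Tiny summands** -/
theorem result : ∃ c C : ℝ, 0 < c ∧ 0 < C ∧ ∀ A : ℕ, ∀ᶠ x : ℕ in atTop,
    c * x / Real.log (Real.log x) ^ 2 ≤
      (({n : ℕ | 32 ≤ n ∧ n ≤ x ∧ Real.log n ^ A ≤ (small C n : ℝ)}.ncard : ℕ) : ℝ) ∧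
    c * x / Real.log (Real.log x) ^ 2 ≤
      (({n : ℕ | 32 ≤ n ∧ n ≤ x ∧ Real.log n ^ A ≤ (cosmall C n : ℝ)}.ncard : ℕ) : ℝ) := by
  classical
  obtain ⟨c, C₂, hc, hC₂, hcore⟩ := core
  refine ⟨c / 26, 8 * C₂, by positivity, by positivity, fun A => ?_⟩
  have tN : Tendsto (fun N : ℕ => (N : ℝ)) atTop atTop := tendsto_natCast_atTop_atTop
  have tL : Tendsto (fun N : ℕ => Real.log (N : ℝ)) atTop atTop := Real.tendsto_log_atTop.comp tN
  have tLL : Tendsto (fun N : ℕ => Real.log (Real.log (N : ℝ))) atTop atTop := Real.tendsto_log_atTop.comp tL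
  have tD : Tendsto (fun x : ℕ => x / 12) atTop atTop := Nat.tendsto_div_const_atTop (by norm_num)
  have hsq : ∀ᶠ N : ℕ in atTop, Real.sqrt N + 32 ≤ c * N / 2 / Real.log (Real.log N) ^ 2 := by
    have h := ((isLittleO_log_rpow_atTop (by norm_num : (0 : ℝ) < 1 / 8)).comp_tendsto tN).bound
      (by norm_num : (0 : ℝ) < 1)
    have h2 : ∀ᶠ N : ℕ in atTop, 4 / c ≤ (N : ℝ) ^ (1 / 4 : ℝ) :=
      ((tendsto_rpow_atTop (by norm_num : (0 : ℝ) < 1 / 4)).comp tN).eventually_ge_atTop _
    filter_upwards [h, h2, tL.eventually_ge_atTop 8, tLL.eventually_ge_atTop 1, eventually_ge_atTop (32 ^ 2)] with N h1 h2 h3 h4 h5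
    have hN1 : (32 ^ 2 : ℝ) ≤ N := by exact_mod_cast h5
    have hN0 : (0 : ℝ) < N := by linarith
    simp only [Function.comp_def] at h1
    rw [one_mul, Real.norm_of_nonneg (by linarith), Real.norm_of_nonneg (by positivity)] at h1
    have h6 : Real.log (Real.log N) ≤ Real.log N := by
      have := Real.log_le_sub_one_of_pos (by linarith : (0 : ℝ) < Real.log N)
      linarith
    have h7 : Real.log (Real.log N) ^ 2 ≤ (N : ℝ) ^ (1 / 4 : ℝ) := by
      calc Real.log (Real.log N) ^ 2 ≤ ((N : ℝ) ^ (1 / 8 : ℝ)) ^ 2 := by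
            gcongr
            linarith
        _ = (N : ℝ) ^ (1 / 4 : ℝ) := by
            rw [← Real.rpow_natCast, ← Real.rpow_mul hN0.le]
            norm_num
    have h8 : Real.sqrt N = (N : ℝ) ^ (1 / 2 : ℝ) := Real.sqrt_eq_rpow _
    have h9 : (32 : ℝ) ≤ Real.sqrt N := by
      rw [Real.le_sqrt' (by norm_num)]
      exact hN1
    rw [le_div_iff₀ (by positivity)]
    have h10 : (N : ℝ) ^ (1 / 2 : ℝ) * (N : ℝ) ^ (1 / 4 : ℝ) * (N : ℝ) ^ (1 / 4 : ℝ) = N := by
      rw [← Real.rpow_add hN0, ← Real.rpow_add hN0]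
      norm_num
    have h11 : 4 / c * c = 4 := by field_simp
    calc (Real.sqrt N + 32) * Real.log (Real.log N) ^ 2 ≤ (Real.sqrt N + Real.sqrt N) * (N : ℝ) ^ (1 / 4 : ℝ) := by
          gcongr
      _ = (N : ℝ) ^ (1 / 2 : ℝ) * (N : ℝ) ^ (1 / 4 : ℝ) * (4 / c) * (c / 2) := by
          rw [h8]
          have : 4 / c * (c / 2) = 2 := by field_simp; norm_num
          rw [mul_assoc _ (4 / c), this]
          ring
      _ ≤ (N : ℝ) ^ (1 / 2 : ℝ) * (N : ℝ) ^ (1 / 4 : ℝ) * (N : ℝ) ^ (1 / 4 : ℝ) * (c / 2) := by gcongr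
      _ = c * N / 2 := by rw [h10]; ring
  have hcl : ∀ᶠ N : ℕ in atTop, Real.log (Real.log N) ≤ C₂ * Real.log N := by
    have h := (Real.isLittleO_log_id_atTop.comp_tendsto tL).bound hC₂
    filter_upwards [h, tL.eventually_ge_atTop 8, tLL.eventually_ge_atTop 1] with N h1 h2 h3
    simp only [Function.comp_def, id] at h1
    rwa [Real.norm_of_nonneg (by linarith), Real.norm_of_nonneg (by linarith)] at h1
  filter_upwards [tD.eventually (hcore (A + 1)), tD.eventually hsq, tD.eventually (tL.eventually_ge_atTop (8 + 2 ^ A)),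
    tD.eventually (tLL.eventually_ge_atTop 1), eventually_ge_atTop 1000, tD.eventually hcl] with x hx hsqx hLx hLLx hx1000 hCL
  obtain ⟨N, hN⟩ : ∃ N : ℕ, N = x / 12 := ⟨_, rfl⟩
  rw [← hN] at hx hsqx hLx hLLx hCL
  obtain ⟨K, hK, hKf⟩ := hx
  have hN80 : 80 ≤ N := by omega
  have hNr : (80 : ℝ) ≤ N := by exact_mod_cast hN80
  have hN0 : (0 : ℝ) < N := by linarith
  have hNx : 12 * N ≤ x := by omega
  have hxN : x ≤ 13 * N := by omega
  have hxNr : (x : ℝ) ≤ 13 * N := by exact_mod_cast hxN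
  have hNxr : (12 : ℝ) * N ≤ x := by exact_mod_cast hNx
  have hlN : Real.log N ≤ Real.log x := Real.log_le_log hN0 (by linarith)
  have h2A : (0 : ℝ) < 2 ^ A := by positivity
  have hlN8 : 8 ≤ Real.log N := by linarith
  have hlx : Real.log x ≤ 2 * Real.log N := by
    have h1 : Real.log x ≤ Real.log ((N : ℝ) ^ 2) := Real.log_le_log (by linarith) (by nlinarith)
    rwa [Real.log_pow] at h1
  have hllx : Real.log (Real.log N) ≤ Real.log (Real.log x) := Real.log_le_log (by linarith) hlN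
  -- the numbers `m ≥ √N`
  have hcount : ∀ (f : ℕ → ℕ), (f = (fun k => k / 4) ∨ f = (fun k => 2 * k)) →
      c / 26 * x / Real.log (Real.log x) ^ 2 ≤ (((Icc 1 (3 * N)).filter (fun m => Real.log N ^ (A + 1) ≤ (rk N K f m : ℝ) ∧
        Real.sqrt N < m ∧ 32 ≤ m)).card : ℝ) := by
    intro f hf
    have h1 := hKf f hf
    have h2 : (Icc 1 (3 * N)).filter (fun m => Real.log N ^ (A + 1) ≤ (rk N K f m : ℝ)) ⊆
        (Icc 1 (3 * N)).filter (fun m => Real.log N ^ (A + 1) ≤ (rk N K f m : ℝ) ∧ Real.sqrt N < m ∧ 32 ≤ m) ∪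
          (Icc 1 ⌊Real.sqrt N⌋₊ ∪ Icc 1 31) := by
      intro m hm
      rw [mem_filter, mem_Icc] at hm
      rw [mem_union, mem_union, mem_filter, mem_Icc, mem_Icc, mem_Icc]
      by_cases h3 : Real.sqrt N < m
      · by_cases h4 : 32 ≤ m
        · exact Or.inl ⟨hm.1, hm.2, h3, h4⟩
        · exact Or.inr (Or.inr (by omega))
      · exact Or.inr (Or.inl ⟨hm.1.1, Nat.le_floor (not_lt.1 h3)⟩)
    have h3 := (card_le_card h2).trans (card_union_le _ _)
    have h4 := card_union_le (Icc 1 ⌊Real.sqrt N⌋₊) (Icc 1 31)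
    rw [Nat.card_Icc, Nat.card_Icc] at h4
    have h5 : (((Icc 1 (3 * N)).filter (fun m => Real.log N ^ (A + 1) ≤ (rk N K f m : ℝ))).card : ℝ) ≤
        ((Icc 1 (3 * N)).filter (fun m => Real.log N ^ (A + 1) ≤ (rk N K f m : ℝ) ∧ Real.sqrt N < m ∧ 32 ≤ m)).card +
          (⌊Real.sqrt N⌋₊ + 31) := by
      have h6 : ((Icc 1 (3 * N)).filter (fun m => Real.log N ^ (A + 1) ≤ (rk N K f m : ℝ))).card ≤
        ((Icc 1 (3 * N)).filter (fun m => Real.log N ^ (A + 1) ≤ (rk N K f m : ℝ) ∧ Real.sqrt N < m ∧ 32 ≤ m)).card +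
          (⌊Real.sqrt N⌋₊ + 31) := by omega
      exact_mod_cast h6
    have h6 : (⌊Real.sqrt (N : ℝ)⌋₊ : ℝ) ≤ Real.sqrt N := Nat.floor_le (Real.sqrt_nonneg _)
    have h7 : c * N / 2 / Real.log (Real.log N) ^ 2 = c * N / Real.log (Real.log N) ^ 2 / 2 := by ring
    have h8 : c / 26 * x / Real.log (Real.log x) ^ 2 ≤ c * N / Real.log (Real.log N) ^ 2 / 2 := by
      calc c / 26 * x / Real.log (Real.log x) ^ 2 ≤ c / 26 * (13 * N) / Real.log (Real.log N) ^ 2 := by gcongr
        _ = _ := by ring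
    linarith
  -- the comparison of the bounds for `k`
  have hexp : ∀ n : ℕ, Real.sqrt N < n → n ≤ x →
      2 * Real.exp (C₂ * Real.log N / Real.log (Real.log N)) ≤ Real.exp (8 * C₂ * Real.log n / Real.log (Real.log n)) := by
    intro n h1 h2
    have h3 : Real.log N / 2 ≤ Real.log n := by
      rw [← Real.log_sqrt hN0.le]
      exact Real.log_le_log (Real.sqrt_pos.2 hN0) h1.le
    have hn0 : (0 : ℝ) < n := lt_of_le_of_lt (Real.sqrt_nonneg _) h1
    have h4 : Real.log n ≤ 2 * Real.log N := by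
      refine le_trans ?_ hlx
      exact Real.log_le_log hn0 (by exact_mod_cast h2)
    have h5 : Real.log (Real.log n) ≤ 2 * Real.log (Real.log N) := by
      have h6 : Real.log (Real.log n) ≤ Real.log (Real.log N ^ 2) :=
        Real.log_le_log (by linarith) (by nlinarith)
      rwa [Real.log_pow] at h6
    have h6 : 0 < Real.log (Real.log n) := Real.log_pos (by linarith)
    have h10 : 2 * Real.exp (C₂ * Real.log N / Real.log (Real.log N)) ≤
        Real.exp (2 * C₂ * Real.log N / Real.log (Real.log N)) := by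
      have h11 : (1 : ℝ) ≤ C₂ * Real.log N / Real.log (Real.log N) := by
        rw [le_div_iff₀ (by linarith), one_mul]
        exact hCL
      have h12 : 2 * C₂ * Real.log N / Real.log (Real.log N) =
          C₂ * Real.log N / Real.log (Real.log N) + C₂ * Real.log N / Real.log (Real.log N) := by ring
      rw [h12, Real.exp_add]
      have h13 := Real.add_one_le_exp (C₂ * Real.log N / Real.log (Real.log N))
      have h14 := Real.exp_pos (C₂ * Real.log N / Real.log (Real.log N))
      nlinarith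
    refine h10.trans (Real.exp_le_exp.2 ?_)
    rw [div_le_div_iff₀ (by linarith) h6]
    have h7 : 2 * C₂ * Real.log N * Real.log (Real.log n) ≤ 2 * C₂ * Real.log N * (2 * Real.log (Real.log N)) := by gcongr
    have h8 : 2 * C₂ * Real.log N * (2 * Real.log (Real.log N)) = 8 * C₂ * (Real.log N / 2) * Real.log (Real.log N) := by ring
    have h9 : 8 * C₂ * (Real.log N / 2) * Real.log (Real.log N) ≤ 8 * C₂ * Real.log n * Real.log (Real.log N) := by gcongr
    linarith
  have hpow : ∀ n : ℕ, Real.sqrt N < n → n ≤ x → Real.log n ^ A ≤ Real.log N ^ (A + 1) := by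
    intro n h1 h2
    have hn0 : (0 : ℝ) < n := lt_of_le_of_lt (Real.sqrt_nonneg _) h1
    have h3 : Real.log N / 2 ≤ Real.log n := by
      rw [← Real.log_sqrt hN0.le]
      exact Real.log_le_log (Real.sqrt_pos.2 hN0) h1.le
    have h4 : Real.log n ≤ 2 * Real.log N := by
      refine le_trans ?_ hlx
      exact Real.log_le_log hn0 (by exact_mod_cast h2)
    calc Real.log n ^ A ≤ (2 * Real.log N) ^ A := pow_le_pow_left₀ (by linarith) h4 A
      _ = Real.log N ^ A * 2 ^ A := by ring
      _ ≤ Real.log N ^ A * Real.log N := by gcongr; linarith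
      _ = _ := by ring
  constructor
  · -- small `k`
    refine (hcount _ (Or.inl rfl)).trans ?_
    rw [Nat.cast_le, ← Set.ncard_coe_finset]
    refine Set.ncard_le_ncard_of_injOn (fun m => 4 * m) ?_ (fun a _ b _ h => by
      have h' : 4 * a = 4 * b := h
      omega) ((Set.finite_le_nat x).subset fun n hn => hn.2.1)
    intro m hm
    rw [mem_coe, mem_filter, mem_Icc] at hm
    obtain ⟨⟨g1, g2⟩, g3, g4, g5⟩ := hm
    have g6 : Real.sqrt N < ((4 * m : ℕ) : ℝ) := by
      push_cast
      have : (0 : ℝ) ≤ m := Nat.cast_nonneg _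
      linarith
    have g7 : 4 * m ≤ x := by omega
    refine ⟨by show 32 ≤ 4 * m; omega, g7, ?_⟩
    show Real.log ((4 * m : ℕ) : ℝ) ^ A ≤ (small (8 * C₂) (4 * m) : ℝ)
    refine ((hpow _ g6 g7).trans g3).trans ?_
    unfold rk small
    rw [Nat.cast_le, ← Set.ncard_coe_finset]
    refine Set.ncard_le_ncard ?_ ((Set.finite_lt_nat (4 * m)).subset fun k hk => ?_)
    · intro k hk
      rw [mem_coe, mem_filter] at hk
      obtain ⟨hkK, hkm⟩ := hk
      obtain ⟨h4, h0, hX⟩ := hK k hkK
      unfold sh pairs at hkm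
      rw [mem_image] at hkm
      obtain ⟨l, hl, hlm⟩ := hkm
      rw [mem_filter] at hl
      obtain ⟨-, hl1, hl2⟩ := hl
      have ho := odd_of h4 h0 hl1 hl2
      have hn : 4 * m = 4 * l + k := by
        have hlm' : l + k / 4 = m := hlm
        have : 4 * (k / 4) = k := Nat.mul_div_cancel' h4
        omega
      have := hl1.two_le
      have hX0 := Real.exp_pos (C₂ * Real.log N / Real.log (Real.log N))
      have hX1 := hexp _ g6 g7
      refine ⟨h0, by omega, by linarith, ?_⟩
      rw [hn, q_small hl1 ho]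
      exact hl2
    · have := hk.2.1
      show k < 4 * m
      omega
  · -- small `n - k`
    refine (hcount _ (Or.inr rfl)).trans ?_
    rw [Nat.cast_le, ← Set.ncard_coe_finset]
    refine Set.ncard_le_ncard ?_ ((Set.finite_le_nat x).subset fun n hn => hn.2.1)
    intro m hm
    rw [mem_coe, mem_filter, mem_Icc] at hm
    obtain ⟨⟨g1, g2⟩, g3, g6, g5⟩ := hm
    have g7 : m ≤ x := by omega
    refine ⟨g5, g7, ?_⟩
    show Real.log (m : ℝ) ^ A ≤ (cosmall (8 * C₂) m : ℝ)
    refine ((hpow _ g6 g7).trans g3).trans ?_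
    unfold rk cosmall
    rw [Nat.cast_le, ← Set.ncard_coe_finset]
    have hmem : ∀ k ∈ K.filter (fun k => m ∈ sh N (Nat.totient k) ((fun k => 2 * k) k)),
        ∃ l : ℕ, l.Prime ∧ (l + Nat.totient k).Prime ∧ m = l + 2 * k := by
      intro k hk
      rw [mem_filter] at hk
      obtain ⟨hkK, hkm⟩ := hk
      unfold sh pairs at hkm
      rw [mem_image] at hkm
      obtain ⟨l, hl, hlm⟩ := hkm
      rw [mem_filter] at hl
      exact ⟨l, hl.2.1, hl.2.2, hlm.symm⟩
    refine Set.ncard_le_ncard_of_injOn (fun k => m - 2 * k) ?_ ?_ ((Set.finite_lt_nat m).subset fun k hk => ?_)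
    · intro k hk
      obtain ⟨l, hl1, hl2, hlm⟩ := hmem k (mem_coe.1 hk)
      have hkK := (mem_filter.1 (mem_coe.1 hk)).1
      obtain ⟨h4, h0, hX⟩ := hK k hkK
      have hml : m - 2 * k = l := by omega
      have h4k := Nat.le_of_dvd h0 h4
      have h2l := hl1.two_le
      show m - 2 * k ∈ _
      rw [hml]
      refine ⟨by omega, by omega, ?_, ?_⟩
      · have h5 : (m : ℝ) - l = 2 * k := by
          rw [hlm]
          push_cast
          ring
        rw [h5]
        have h7 := hexp m g6 g7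
        linarith
      · rw [hlm, q_cosmall h4 hl1]
        exact hl2
    · intro k hk k' hk' h
      obtain ⟨l, hl1, hl2, hlm⟩ := hmem k (mem_coe.1 hk)
      obtain ⟨l', hl1', hl2', hlm'⟩ := hmem k' (mem_coe.1 hk')
      have h' : m - 2 * k = m - 2 * k' := h
      omega
    · have := hk.2.1
      show k < m
      omega

end Pool.Agent.Results.MP_61a569_nt.TinySummands
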